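import Pool.Agent.X120.BM.One

/-!
# CM-points among the points `(b_1^(-t_1), …, b_k^(-t_k))` for families with big symplectic monodromy

Let `V_i`, `1 ≤ i ≤ k`, be variations of Hodge structure with `h^{w_i, 0} = 1` (of Calabi-Yau type) over the projective line without finitely many points, which come from geometry over `ℚ`, with a
nondegenerate alternating form, such that the monodromy group is dense in a symplectic group. The fibre over `x = 0` may be smooth or degenerate: we suppose that near `x = 0` the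
period matrix is `L_i(log (1/x)) P_i(x)`, where the entries of `P_i` are polynomials with any complex coefficients in a system of G-functions with rational coefficients which are solutions of a
differential system with a regular singularity with rational exponents at infinity, and the entries of `L_i(u)` are polynomials. (For a smooth fibre over `0` the entries of a fundamental matrix of
solutions of the Gauss-Manin system over `ℚ(x)` at `0` are such G-functions, and `L_i = 1`. If the monodromy at `0` is unipotent then `L_i(u) = exp(u M_i)`.) We consider the variation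
`V = pr_1^* V_1 ⊕ … ⊕ pr_k^* V_k` on the product `S` of the `k` curves. If the Hodge numbers of one `V_i` are not those of an abelian variety the generic Hodge datum is not a Shimura datum, and
by the conjecture the CM-points of `V` are not Zariski dense in `S`.

**Theorem.** Let `b_i ≥ 2` be integers. There is a constant `K`, which depends only on the G-functions, the ranks, the degrees `e` of the polynomials and the `b_i`, such that for all such `V_i`
there are sets `E_1, …, E_k` of natural numbers with at most `K log N` elements in `[1, N]`, such that all CM-points of the form `(b_1^(-t_1), …, b_k^(-t_k))` have `t_i ∈ E_i` for all `i`.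
In particular at most `(K log N)^k` of the `N^k` points with `t_i ≤ N` are CM-points.

For the hypergeometric families of Calabi-Yau type with their maximally unipotent degeneration this is `MP_2794d1_ag.CMTuplesAtPowers`; here the families and the fibre over `0` are arbitrary.
For families of abelian varieties there are only finitely many rational CM-points in a curve with big monodromy; for other families no bound for the CM-points among the `b^(-t)` was known.

Proof. The Mumford-Tate group of the fibre of `V_i` at `b_i^(-t)` contains `Sp(V_i)` for all but `K log N` of the `t ≤ N`: non-generic fibres give quadratic relations for the vector of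
periods of the form of type `(w, 0)` with rational coefficients (`Pool.Agent.X120.HG`). By the counting theorem on geometric sequences (`Pool.Agent.X120.GS`) for all but few points all
relations of this degree are stable under the symplectic group, and there are no such relations.
-/

set_option autoImplicit false

open Pool.Agent.X120.BM

namespace Pool.Agent.Results.MP_2794d1_ag.CMPointsBigMonodromy

section
variable {k : ℕ} {n : Fin k → ℕ}

/-- the complexification of a rational space of block diagonal matrices `(X_1, …, X_k)` -/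
def complexification (𝔪 : Submodule ℚ (∀ i, Matrix (Fin (n i)) (Fin (n i)) ℚ)) :
    Submodule ℂ (∀ i, Matrix (Fin (n i)) (Fin (n i)) ℂ) :=
  Submodule.span ℂ ((fun X : (∀ i, Matrix (Fin (n i)) (Fin (n i)) ℚ) => fun i => toC (X i)) '' 𝔪)

/-- The sum of the Hodge structures `H_i` has complex multiplication: there is a rational space of commuting block diagonal matrices whose
complexification contains the Hodge operator `(Φ_1, …, Φ_k)`. (For a torus, the Lie algebra of the Mumford–Tate group is such a space.) -/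
def IsCM (w : Fin k → ℕ) (H : ∀ i, ℕ → Submodule ℂ (Fin (n i) → ℂ)) : Prop :=
  ∃ 𝔪 : Submodule ℚ (∀ i, Matrix (Fin (n i)) (Fin (n i)) ℚ), (∀ X ∈ 𝔪, ∀ Y ∈ 𝔪, ∀ i, X i * Y i = Y i * X i) ∧
    ∃ Φ : ∀ i, Matrix (Fin (n i)) (Fin (n i)) ℂ, (∀ i, IsHodgeOperator (w i) (H i) (Φ i)) ∧ Φ ∈ complexification 𝔪

/-- passing to coordinates of complex numbers over `ℚ` -/
theorem coord_mem {𝔪 : Submodule ℚ (∀ i, Matrix (Fin (n i)) (Fin (n i)) ℚ)}
    {Z : ∀ i, Matrix (Fin (n i)) (Fin (n i)) ℂ} (hZ : Z ∈ complexification 𝔪)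
    (φ : ℂ →ₗ[ℚ] ℚ) : (fun i => Pool.Agent.X120.HG.ph φ (Z i)) ∈ 𝔪 := by
  unfold complexification at hZ
  induction hZ using Submodule.span_induction generalizing φ with
  | mem x hx =>
    obtain ⟨Y, hY, rfl⟩ := hx
    have h1 : (fun i => Pool.Agent.X120.HG.ph φ (toC (Y i))) = φ 1 • Y := by
      funext i
      exact Pool.Agent.X120.HG.ph_cq φ _
    exact h1 ▸ 𝔪.smul_mem _ hY
  | zero =>
    have h1 : (fun i => Pool.Agent.X120.HG.ph φ (0 : Matrix (Fin (n i)) (Fin (n i)) ℂ)) = 0 := by
      funext i
      exact Pool.Agent.X120.HG.ph_zero φ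
    exact h1 ▸ 𝔪.zero_mem
  | add x y _ _ hx hy =>
    have h1 : (fun i => Pool.Agent.X120.HG.ph φ (x i + y i)) =
        (fun i => Pool.Agent.X120.HG.ph φ (x i)) + (fun i => Pool.Agent.X120.HG.ph φ (y i)) := by
      funext i
      exact Pool.Agent.X120.HG.ph_add φ _ _
    have h2 := 𝔪.add_mem (hx φ) (hy φ)
    rw [← h1] at h2
    exact h2
  | smul a x _ hx => exact hx (Pool.Agent.X120.HG.phs φ a)

end

/-- The point `(b_1^(-t_1), …, b_k^(-t_k))` is a CM-point: there are Hodge structures `H_i` with forms
`A_i` on the fibres, with the part of type `(w_i, 0)` given by the period vector, whose sum has complex multiplication. -/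
def IsCMPoint {k e : ℕ} {G : Fin k → GSystem} {n : Fin k → ℕ} (F : ∀ i, Periods (G i) (n i) e) (w b t : Fin k → ℕ) : Prop :=
  ∃ (A : ∀ i, Matrix (Fin (n i)) (Fin (n i)) ℚ) (H : ∀ i, ℕ → Submodule ℂ (Fin (n i) → ℂ)),
    IsFibre F w b t A H ∧ IsCM w H

/-- **The theorem.** -/
theorem result (k e : ℕ) (G : Fin k → GSystem) (n : Fin k → ℕ) (b : Fin k → ℕ) (hb : ∀ i, 2 ≤ b i) :
    ∃ K : ℝ, 0 ≤ K ∧ ∀ (F : ∀ i, Periods (G i) (n i) e) (w : Fin k → ℕ),
      ∃ E : Fin k → Set ℕ, (∀ i, ∀ N : ℕ, 2 ≤ N → (({t : ℕ | 1 ≤ t ∧ t ≤ N ∧ t ∈ E i}.ncard : ℕ) : ℝ) ≤ K * Real.log N) ∧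
        (∀ t : Fin k → ℕ, IsCMPoint F w b t → ∀ i, t i ∈ E i) ∧
        ∀ N : ℕ, 2 ≤ N → (({t : Fin k → ℕ | (∀ i, 1 ≤ t i ∧ t i ≤ N) ∧ IsCMPoint F w b t}.ncard : ℕ) : ℝ) ≤
          (K * Real.log N) ^ k := by
  classical
  choose K hK hcount using fun i => count_one e (G i) (n i) (b i) (hb i)
  refine ⟨∑ i, K i, Finset.sum_nonneg fun i _ => hK i, ?_⟩
  intro F w
  have hE : ∀ i, ∀ N : ℕ, 2 ≤ N → (({t : ℕ | 1 ≤ t ∧ t ≤ N ∧ t ∈ {t : ℕ | ¬ G1 (F i) (w i) (b i) t}}.ncard : ℕ) : ℝ) ≤
      (∑ i, K i) * Real.log N := by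
    intro i N hN
    refine (hcount i (F i) (w i) N hN).trans ?_
    refine mul_le_mul_of_nonneg_right (Finset.single_le_sum (fun j _ => hK j) (Finset.mem_univ i)) ?_
    exact Real.log_nonneg (by
      have : 1 ≤ N := by omega
      exact_mod_cast this)
  have hmem : ∀ t : Fin k → ℕ, IsCMPoint F w b t → ∀ i, t i ∈ {t : ℕ | ¬ G1 (F i) (w i) (b i) t} := by
    rintro t ⟨A, H, hF, 𝔪, hcomm, Φ, hop, hΦ⟩ i hG
    obtain ⟨hw, hH, h0, hω⟩ := hF i
    have hn : 0 < n i := Fin.pos (F i).c
    obtain ⟨X, Y, hX, hY, hXY⟩ := Pool.Agent.X120.HG.sp_not_comm (n := n i) hn hH.alt hH.nondeg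
    have hV : ∀ X ∈ 𝔪.map (LinearMap.proj i), ∀ Y ∈ 𝔪.map (LinearMap.proj i), X * Y = Y * X := by
      rintro _ ⟨X, hX, rfl⟩ _ ⟨Y, hY, rfl⟩
      exact hcomm X hX Y hY i
    have hg := hG (A i) (H i) hw hH h0 hω (𝔪.map (LinearMap.proj i)) (fun X hX Y hY => by
      rw [hV X hX Y hY, sub_self]
      exact Submodule.zero_mem _) (fun Φ' hΦ' φ => by
      rw [Pool.Agent.X120.HG.hop_unique hH.span hΦ' (hop i)]
      exact ⟨_, coord_mem hΦ φ, rfl⟩)
    exact hXY (hV X (hg X hX) Y (hg Y hY))
  refine ⟨fun i => {t : ℕ | ¬ G1 (F i) (w i) (b i) t}, hE, hmem, ?_⟩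
  intro N hN
  -- the product of the exceptional sets
  set U : Fin k → Set ℕ := fun i => {t : ℕ | 1 ≤ t ∧ t ≤ N ∧ t ∈ {t : ℕ | ¬ G1 (F i) (w i) (b i) t}} with hU
  have hUf : ∀ i, (U i).Finite := fun i => (Set.finite_Iic N).subset fun t ht => ht.2.1
  have h1 : {t : Fin k → ℕ | (∀ i, 1 ≤ t i ∧ t i ≤ N) ∧ IsCMPoint F w b t} ⊆
      (Fintype.piFinset fun i => (hUf i).toFinset : Finset (Fin k → ℕ)) := by
    intro t ht
    rw [Finset.mem_coe, Fintype.mem_piFinset]
    intro i
    rw [Set.Finite.mem_toFinset]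
    exact ⟨(ht.1 i).1, (ht.1 i).2, hmem t ht.2 i⟩
  have h2 := Set.ncard_le_ncard h1 (Finset.finite_toSet _)
  rw [Set.ncard_coe_finset, Fintype.card_piFinset] at h2
  calc (({t : Fin k → ℕ | (∀ i, 1 ≤ t i ∧ t i ≤ N) ∧ IsCMPoint F w b t}.ncard : ℕ) : ℝ)
      ≤ ((∏ i, (hUf i).toFinset.card : ℕ) : ℝ) := by exact_mod_cast h2
    _ = ∏ i, ((hUf i).toFinset.card : ℝ) := by push_cast; rfl
    _ ≤ ∏ _i : Fin k, ((∑ i, K i) * Real.log N) := by
        refine Finset.prod_le_prod (fun i _ => Nat.cast_nonneg _) fun i _ => ?_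
        have h3 := hE i N hN
        rw [Set.ncard_eq_toFinset_card _ (hUf i)] at h3
        exact h3
    _ = ((∑ i, K i) * Real.log N) ^ k := by
        rw [Finset.prod_const, Finset.card_univ, Fintype.card_fin]

end Pool.Agent.Results.MP_2794d1_ag.CMPointsBigMonodromy
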