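import Pool.Agent.X120.HG.One

/-!
# CM-points `(b_1^(-t_1), …, b_k^(-t_k))` of sums of hypergeometric variations of Calabi-Yau type

Let `β_(i,1), …, β_(i,m_i)`, `1 ≤ i ≤ k`, be rational numbers which are not integers, `θ = z d/dz`, and let `V_i` be the variation of Hodge structure on the
projective line minus three points given by the hypergeometric operator `θ^(2m_i) - z ∏_j (θ + β_(i,j)) (θ + 1 - β_(i,j))`. It has maximally unipotent monodromy at `z = 0`. If the
`β_(i,j)` are in `(0, 1)` it is irreducible of rank `2m_i`, of weight `2m_i - 1` with all Hodge numbers `h^{p,q} = 1`. For `m_i = 2` these are the variations of the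
14 hypergeometric families of Calabi-Yau threefolds, for example of the mirror quintic. The rational structure is given, in the coordinates of the Frobenius basis, by an invertible matrix `C_i` (periods of the
limiting mixed Hodge structure); all invertible complex matrices are allowed here. For `m_i ≥ 2` the generic Hodge datum of the variation
`V = pr_1^* V_1 ⊕ … ⊕ pr_k^* V_k` on `S = (ℙ¹ - {0, 1, ∞})^k` is not a Shimura datum, and the conjecture says that the CM-points are not Zariski dense in `S`.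

**Theorem.** Let `b_i ≥ 2` be integers. There is a constant `K`, which depends only on the `β_(i,j)` and the `b_i`, such that for all `C_i` there are sets `E_1, …, E_k` of natural numbers with at most `K log N` elements
up to `N` for all `N ≥ 2`, such that all CM-points of `V` of the form `(b_1^(-t_1), …, b_k^(-t_k))` have `t_i ∈ E_i` for all `i`. In particular there are at most `(K log N)^k` CM-points among the `N^k` points with `t_i ≤ N`.

(For `k = 1` and `m_1 ≥ 4` it is known that only finitely many of the points `1 / s`, `s ∈ ℕ`, are CM-points; for Calabi-Yau threefolds, `m_1 = 2`, and for `m_1 = 3` this is not known. The known counting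
theorems for these do not say anything on the powers of `b`, as there are only `O(log X)` of these with `b^t ≤ X`.)

Proof. `E_i` is the set of the `t` for which the fibre of `V_i` at `b_i^(-t)` is not Hodge generic, as in `MP_0704bf_ag.HodgeGenericAtPowers`: if `V_i` is generic at the point, then a commutative rational
Lie algebra whose complexification contains the Hodge operator of `V` at the point projects to a commutative Lie algebra which contains the symplectic Lie algebra, a contradiction.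
-/

set_option autoImplicit false

open PowerSeries

namespace Pool.Agent.Results.MP_2794d1_ag.CMTuplesAtPowers

/-- the power series `x + ε` in the variable `ε` -/
noncomputable def shift (x : ℚ) : PowerSeries ℚ := C x + X

/-- `a_k(ε) = ∏_{l < k} ∏_j (l + ε + β_j) (l + ε + 1 - β_j) / (l + 1 + ε)^2`. The series `∑_k a_k(ε) z^(k + ε)` satisfies
`(θ^n - z ∏_j (θ + β_j) (θ + 1 - β_j)) f = ε^n z^ε`, `n = 2m`, hence its coefficients `f_j` at `ε^j` with `j < n` are
solutions of the homogeneous equation. -/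
noncomputable def frob {m : ℕ} (β : Fin m → ℚ) (k : ℕ) : PowerSeries ℚ :=
  ∏ l ∈ Finset.range k, ∏ j, (shift (l + β j) * shift (l + 1 - β j) * ((shift (l + 1))⁻¹) ^ 2)

/-- The row `((θ^i f_j)(1 / s))_j`, where `f_j(z)` is the coefficient of `ε^j` in the series `∑_k a_k(ε) z^(k + ε)`,
`z^ε = ∑_l (log z)^l ε^l / l!`. -/
noncomputable def per {m : ℕ} (β : Fin m → ℚ) (s i : ℕ) : Fin (2 * m) → ℂ := fun j =>
  ∑ l ∈ Finset.range ((j : ℕ) + 1), ((Real.log (1 / s) ^ l / l.factorial : ℝ) : ℂ) *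
    ∑' k : ℕ, ((coeff ((j : ℕ) - l) (shift k ^ i * frob β k) : ℚ) : ℂ) * (1 / (s : ℂ)) ^ k

/-- a rational matrix as a complex matrix -/
def toC {n : ℕ} (M : Matrix (Fin n) (Fin n) ℚ) : Matrix (Fin n) (Fin n) ℂ := M.map fun x : ℚ => (x : ℂ)

/-- `H p = H^{p, w-p}`, `p ≤ w`, are the parts of a Hodge structure of weight `w` on `ℚ^n` with the first bilinear relation for the nondegenerate
alternating form `A`, for example a Hodge structure which is polarised by `A`. (The sum is direct because of the relation.) -/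
structure IsHodge {n : ℕ} (w : ℕ) (A : Matrix (Fin n) (Fin n) ℚ) (H : ℕ → Submodule ℂ (Fin n → ℂ)) : Prop where
  alt : A.transpose = -A
  nondeg : A.det ≠ 0
  span : (⨆ p : {p : ℕ // p ≤ w}, H p) = ⊤
  conj : ∀ p ≤ w, ∀ v ∈ H p, (fun i => star (v i)) ∈ H (w - p)
  orth : ∀ p ≤ w, ∀ r ≤ w, p + r ≠ w → ∀ v ∈ H p, ∀ u ∈ H r, dotProduct v (Matrix.mulVec (toC A) u) = 0

/-- The Hodge operator `Φ` is the multiplication by `p` on `H^{p, w-p}`. Matrices act on row vectors from the right. -/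
def IsHodgeOperator {n : ℕ} (w : ℕ) (H : ℕ → Submodule ℂ (Fin n → ℂ)) (Φ : Matrix (Fin n) (Fin n) ℂ) : Prop :=
  ∀ p ≤ w, ∀ v ∈ H p, Matrix.vecMul v Φ = (p : ℂ) • v

section
variable {k : ℕ} {n : Fin k → ℕ}

/-- the complexification of a rational space of block diagonal matrices `(X_1, …, X_k)` -/
def complexification (𝔪 : Submodule ℚ (∀ i, Matrix (Fin (n i)) (Fin (n i)) ℚ)) :
    Submodule ℂ (∀ i, Matrix (Fin (n i)) (Fin (n i)) ℂ) :=
  Submodule.span ℂ ((fun X : (∀ i, Matrix (Fin (n i)) (Fin (n i)) ℚ) => fun i => toC (X i)) '' 𝔪)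

/-- The sum of the Hodge structures `H_i` has complex multiplication: there is a rational space of commuting block diagonal matrices whose
complexification contains the Hodge operator `(Φ_1, …, Φ_k)`. (For a torus, the Lie algebra of the Mumford–Tate group is such a space.) -/
def IsCM (w : Fin k → ℕ) (H : ∀ i, ℕ → Submodule ℂ (Fin (n i) → ℂ)) : Prop :=
  ∃ 𝔪 : Submodule ℚ (∀ i, Matrix (Fin (n i)) (Fin (n i)) ℚ), (∀ X ∈ 𝔪, ∀ Y ∈ 𝔪, ∀ i, X i * Y i = Y i * X i) ∧
    ∃ Φ : ∀ i, Matrix (Fin (n i)) (Fin (n i)) ℂ, (∀ i, IsHodgeOperator (w i) (H i) (Φ i)) ∧ Φ ∈ complexification 𝔪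

/-- passing to coordinates of complex numbers over `ℚ` -/
theorem coord_mem {𝔪 : Submodule ℚ (∀ i, Matrix (Fin (n i)) (Fin (n i)) ℚ)}
    {Z : ∀ i, Matrix (Fin (n i)) (Fin (n i)) ℂ} (hZ : Z ∈ complexification 𝔪)
    (φ : ℂ →ₗ[ℚ] ℚ) : (fun i => Pool.Agent.X120.HG.ph φ (Z i)) ∈ 𝔪 := by
  unfold complexification at hZ
  induction hZ using Submodule.span_induction generalizing φ with
  | mem x hx =>
    obtain ⟨Y, hY, rfl⟩ := hx
    have h1 : (fun i => Pool.Agent.X120.HG.ph φ (toC (Y i))) = φ 1 • Y := by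
      funext i
      exact Pool.Agent.X120.HG.ph_cq φ _
    exact h1 ▸ 𝔪.smul_mem _ hY
  | zero =>
    have h1 : (fun i => Pool.Agent.X120.HG.ph φ (0 : Matrix (Fin (n i)) (Fin (n i)) ℂ)) = 0 := by
      funext i
      exact Pool.Agent.X120.HG.ph_zero φ
    exact h1 ▸ 𝔪.zero_mem
  | add x y _ _ hx hy =>
    have h1 : (fun i => Pool.Agent.X120.HG.ph φ (x i + y i)) =
        (fun i => Pool.Agent.X120.HG.ph φ (x i)) + (fun i => Pool.Agent.X120.HG.ph φ (y i)) := by
      funext i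
      exact Pool.Agent.X120.HG.ph_add φ _ _
    have h2 := 𝔪.add_mem (hx φ) (hy φ)
    rw [← h1] at h2
    exact h2
  | smul a x _ hx => exact hx (Pool.Agent.X120.HG.phs φ a)

end

/-- The point `z = (1 / s_1, …, 1 / s_k)` is a CM-point of `V_1 ⊕ … ⊕ V_k`: there are Hodge structures `H_i` of weight `2 m_i - 1` with forms
`A_i` such that `H_i^{2 m_i - 1, 0}` is spanned by the period vector of the `i`-th family at `1 / s_i`, in the coordinates given by `C_i`, whose sum
has complex multiplication. -/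
def IsCMPoint {k : ℕ} {m : Fin k → ℕ} (β : ∀ i, Fin (m i) → ℚ) (s : Fin k → ℕ)
    (C : ∀ i, Matrix (Fin (2 * m i)) (Fin (2 * m i)) ℂ) : Prop :=
  ∃ (A : ∀ i, Matrix (Fin (2 * m i)) (Fin (2 * m i)) ℚ) (H : ∀ i, ℕ → Submodule ℂ (Fin (2 * m i) → ℂ)),
    (∀ i, IsHodge (2 * m i - 1) (A i) (H i)) ∧
    (∀ i, H i (2 * m i - 1) = Submodule.span ℂ {Matrix.vecMul (per (β i) (s i) 0) (C i)}) ∧
    IsCM (fun i => 2 * m i - 1) H

/-- **The theorem.** -/
theorem result (k : ℕ) (m : Fin k → ℕ) (hm : ∀ i, 1 ≤ m i) (β : ∀ i, Fin (m i) → ℚ)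
    (hβ : ∀ i j, ∀ a : ℤ, β i j ≠ a) (b : Fin k → ℕ) (hb : ∀ i, 2 ≤ b i) :
    ∃ K : ℝ, 0 ≤ K ∧ ∀ C : ∀ i, Matrix (Fin (2 * m i)) (Fin (2 * m i)) ℂ, (∀ i, (C i).det ≠ 0) →
      ∃ E : Fin k → Set ℕ, (∀ i, ∀ N : ℕ, 2 ≤ N → (({t : ℕ | 1 ≤ t ∧ t ≤ N ∧ t ∈ E i}.ncard : ℕ) : ℝ) ≤ K * Real.log N) ∧
        (∀ t : Fin k → ℕ, IsCMPoint β (fun i => b i ^ t i) C → ∀ i, t i ∈ E i) ∧
        ∀ N : ℕ, 2 ≤ N → (({t : Fin k → ℕ | (∀ i, 1 ≤ t i ∧ t i ≤ N) ∧ IsCMPoint β (fun i => b i ^ t i) C}.ncard : ℕ) : ℝ) ≤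
          (K * Real.log N) ^ k := by
  classical
  choose K hK hcount using fun i => Pool.Agent.X120.HG.hyp_one (m i) (hm i) (β i) (hβ i) (b i) (hb i)
  refine ⟨∑ i, K i, Finset.sum_nonneg fun i _ => hK i, ?_⟩
  intro C hC
  have hE : ∀ i, ∀ N : ℕ, 2 ≤ N → (({t : ℕ | 1 ≤ t ∧ t ≤ N ∧ t ∈ {t : ℕ | ¬ Pool.Agent.X120.HG.G1 (β i) (b i ^ t) (C i)}}.ncard : ℕ) : ℝ) ≤
      (∑ i, K i) * Real.log N := by
    intro i N hN
    refine (hcount i (C i) (hC i) N hN).trans ?_
    refine mul_le_mul_of_nonneg_right (Finset.single_le_sum (fun j _ => hK j) (Finset.mem_univ i)) ?_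
    exact Real.log_nonneg (by
      have : 1 ≤ N := by omega
      exact_mod_cast this)
  have hmem : ∀ t : Fin k → ℕ, IsCMPoint β (fun i => b i ^ t i) C → ∀ i, t i ∈ {t : ℕ | ¬ Pool.Agent.X120.HG.G1 (β i) (b i ^ t) (C i)} := by
    rintro t ⟨A, H, hH, hHω, 𝔪, hcomm, Φ, hop, hΦ⟩ i hG
    have hHS : Pool.Agent.X120.HG.HS (2 * m i - 1) (A i) (H i) :=
      ⟨(hH i).alt, (hH i).nondeg, (hH i).span, (hH i).conj, (hH i).orth⟩
    obtain ⟨X, Y, hX, hY, hXY⟩ := Pool.Agent.X120.HG.sp_not_comm (n := 2 * m i) (by have := hm i; omega) (hH i).alt (hH i).nondeg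
    have hV : ∀ X ∈ 𝔪.map (LinearMap.proj i), ∀ Y ∈ 𝔪.map (LinearMap.proj i), X * Y = Y * X := by
      rintro _ ⟨X, hX, rfl⟩ _ ⟨Y, hY, rfl⟩
      exact hcomm X hX Y hY i
    have hg := hG (A i) (H i) hHS (hHω i) (𝔪.map (LinearMap.proj i)) (fun X hX Y hY => by
      rw [hV X hX Y hY, sub_self]
      exact Submodule.zero_mem _) (fun Φ' hΦ' φ => by
      rw [Pool.Agent.X120.HG.hop_unique (hH i).span hΦ' (hop i)]
      exact ⟨_, coord_mem hΦ φ, rfl⟩)
    exact hXY (hV X (hg X hX) Y (hg Y hY))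
  refine ⟨fun i => {t : ℕ | ¬ Pool.Agent.X120.HG.G1 (β i) (b i ^ t) (C i)}, hE, hmem, ?_⟩
  intro N hN
  -- the product of the exceptional sets
  set F : Fin k → Set ℕ := fun i => {t : ℕ | 1 ≤ t ∧ t ≤ N ∧ t ∈ {t : ℕ | ¬ Pool.Agent.X120.HG.G1 (β i) (b i ^ t) (C i)}} with hF
  have hFf : ∀ i, (F i).Finite := fun i => (Set.finite_Iic N).subset fun t ht => ht.2.1
  have h1 : {t : Fin k → ℕ | (∀ i, 1 ≤ t i ∧ t i ≤ N) ∧ IsCMPoint β (fun i => b i ^ t i) C} ⊆
      (Fintype.piFinset fun i => (hFf i).toFinset : Finset (Fin k → ℕ)) := by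
    intro t ht
    rw [Finset.mem_coe, Fintype.mem_piFinset]
    intro i
    rw [Set.Finite.mem_toFinset]
    exact ⟨(ht.1 i).1, (ht.1 i).2, hmem t ht.2 i⟩
  have h2 := Set.ncard_le_ncard h1 (Finset.finite_toSet _)
  rw [Set.ncard_coe_finset, Fintype.card_piFinset] at h2
  calc (({t : Fin k → ℕ | (∀ i, 1 ≤ t i ∧ t i ≤ N) ∧ IsCMPoint β (fun i => b i ^ t i) C}.ncard : ℕ) : ℝ)
      ≤ ((∏ i, (hFf i).toFinset.card : ℕ) : ℝ) := by exact_mod_cast h2
    _ = ∏ i, ((hFf i).toFinset.card : ℝ) := by push_cast; rfl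
    _ ≤ ∏ _i : Fin k, ((∑ i, K i) * Real.log N) := by
        refine Finset.prod_le_prod (fun i _ => Nat.cast_nonneg _) fun i _ => ?_
        have h3 := hE i N hN
        rw [Set.ncard_eq_toFinset_card _ (hFf i)] at h3
        exact h3
    _ = ((∑ i, K i) * Real.log N) ^ k := by
        rw [Finset.prod_const, Finset.card_univ, Fintype.card_fin]

end Pool.Agent.Results.MP_2794d1_ag.CMTuplesAtPowers
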