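import Pool.Agent.Results.MP_2794d1_ag.CMPointsBigMonodromy
import Pool.Agent.X174.WinExpo

/-!
# No CM-points `(b_1^(-t_1), …, b_k^(-t_k))` with exponents in cubes around thin sequences of points

Let `V_i`, `1 ≤ i ≤ k`, be variations of Hodge structure with `h^{w_i, 0} = 1` (of Calabi-Yau type) over the projective line
without finitely many points, which come from geometry over `ℚ`, with a nondegenerate alternating form, such that the
monodromy group is dense in a symplectic group, given near `x = 0` by period matrices `L_i(log (1/x)) P_i(x)`, where the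
entries of `P_i` are polynomials with any complex coefficients in a system of G-functions and the entries of `L_i(u)` are
polynomials, as in the result `CMPointsBigMonodromy` of helper120. We consider the variation
`V = pr_1^* V_1 ⊕ … ⊕ pr_k^* V_k` on the product `S` of the `k` curves. If the Hodge numbers of one `V_i` are not those of an
abelian variety the generic Hodge datum is not a Shimura datum, and by the conjecture the CM-points of `V` are not Zariski
dense in `S`.

**Theorem.** Let `v ≥ 1` be a sequence of exponent of convergence at most `τ` (for `v_i = (i + 1) ^ a` this is `1 / a`, for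
`v_i = c ^ i` it is `0`) and `ρ < 1`. There is ONE set `E ⊂ ℝ^k` of Hausdorff dimension at most `τ / (1 - ρ)` (it does not
grow with `k`) such that for each `x` outside `E`, all bases `b_1, …, b_k ≥ 2` and all weights, for all but finitely many
`i`: NO point `(b_1^(-t_1), …, b_k^(-t_k))` with exponents `t_j ≥ 1` and `|t_j - x_j v_i| ≤ v_i ^ ρ` is a CM-point of `V`.
For `v_i = c ^ i` and any `ρ < 1` the set `E` has dimension zero.

The count of the CM-points with exponents in `[1, N]^k` is from `CMPointsBigMonodromy`.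
-/

set_option autoImplicit false

open Pool.Agent.X120.BM

namespace Pool.Agent.Results.MP_2794d1_ag.ExponentsInCubes

open CMPointsBigMonodromy (IsCMPoint)

/-- the exponent of convergence of the sequence `v` is at most `τ` -/
def ExpLe (v : ℕ → ℝ) (τ : ℝ) : Prop := ∀ t : ℝ, τ < t → Summable (fun n : ℕ => (v n) ^ (-t))

/-- **Theorem.** Let `F` be period matrices of `k` families of Calabi-Yau type with big symplectic monodromy. For every
sequence `v ≥ 1` of exponent of convergence at most `τ ≥ 0` and every `ρ < 1` there is a set `E ⊂ ℝ^k` of Hausdorff dimension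
at most `τ / (1 - ρ)` such that for each `x` outside `E`, all `b_j ≥ 2` and all weights `w_j`, for all but finitely many `i`,
NO `t` with `t_j ≥ 1` and `|t_j - x_j v_i| ≤ v_i ^ ρ` gives a CM-point `(b_1^(-t_1), …, b_k^(-t_k))`. The sequences
`v_i = (i + 1) ^ a` and `v_i = c ^ i` have exponent of convergence at most `1 / a` and `0`. -/
theorem result :
    (∀ (k e : ℕ) (G : Fin k → GSystem) (n : Fin k → ℕ) (F : ∀ j, Periods (G j) (n j) e)
      (v : ℕ → ℝ) (τ ρ : ℝ), (∀ i, 1 ≤ v i) → 0 ≤ τ → ExpLe v τ → ρ < 1 →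
      ∃ E : Set (Fin k → ℝ), dimH E ≤ ENNReal.ofReal (τ / (1 - ρ)) ∧
        ∀ x : Fin k → ℝ, x ∉ E → ∀ b w : Fin k → ℕ, (∀ j, 2 ≤ b j) →
          ∃ i₀ : ℕ, ∀ i : ℕ, i₀ ≤ i → ∀ t : Fin k → ℕ, (∀ j, 1 ≤ t j) →
            (∀ j, |(t j : ℝ) - x j * v i| ≤ (v i) ^ ρ) → ¬ IsCMPoint F w b t) ∧
    (∀ a : ℝ, 0 < a → ExpLe (fun n : ℕ => ((n : ℝ) + 1) ^ a) (1 / a)) ∧
    (∀ c : ℝ, 1 < c → ExpLe (fun n : ℕ => c ^ n) 0) := by
  refine ⟨fun k e G n F v τ ρ hv hτ hE hρ => ?_, fun κ hκ => Pool.Agent.Y854.GM.expLe_pow κ hκ,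
    fun b hb => Pool.Agent.Y854.GM.expLe_geom b hb⟩
  have key : ∀ z : (Fin k → ℕ) × (Fin k → ℕ), ∃ E : Set (Fin k → ℝ),
      dimH E ≤ ENNReal.ofReal (τ / (1 - ρ)) ∧
      ((∀ j, 2 ≤ z.1 j) → ∀ x : Fin k → ℝ, x ∉ E → ∃ i₀ : ℕ, ∀ i : ℕ, i₀ ≤ i → ∀ t : Fin k → ℕ, (∀ j, 1 ≤ t j) →
          (∀ j, |(t j : ℝ) - x j * v i| ≤ (v i) ^ ρ) → ¬ IsCMPoint F z.2 z.1 t) := by
    rintro ⟨b, w⟩
    dsimp only
    by_cases hb : ∀ j, 2 ≤ b j
    · obtain ⟨K, hK, h⟩ := CMPointsBigMonodromy.result k e G n b hb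
      obtain ⟨-, -, -, h3⟩ := h F w
      obtain ⟨E, h1, h2⟩ := Pool.Agent.X174.winLog k (fun t => IsCMPoint F w b t) h3 hv hτ hE hρ
      exact ⟨E, h1, fun _ => h2⟩
    · exact ⟨∅, by simp, fun h => absurd h hb⟩
  choose Es h1 h2 using key
  refine ⟨⋃ z, Es z, ?_, fun x hx b w hb => ?_⟩
  · rw [dimH_iUnion]
    exact iSup_le h1
  · exact h2 ⟨b, w⟩ hb x (fun hm => hx (Set.mem_iUnion.2 ⟨_, hm⟩))

end Pool.Agent.Results.MP_2794d1_ag.ExponentsInCubes
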