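import Pool.Agent.X120.OR.One

/-!
# Points of Shimura type and CM-points among the points `(b_1^(-t_1), …, b_k^(-t_k))` for families with big orthogonal monodromy

Let `V_i`, `1 ≤ i ≤ k`, be variations of Hodge structure of even weight `w_i` over the projective line without finitely many points, which come from geometry over `ℚ`, with a nondegenerate symmetric form, such that the
monodromy group is dense in the orthogonal group, and whose Hodge numbers are `h^(p,w-p) = 2` for the largest `p` with `h^(p,w-p) ≠ 0` (for example the vanishing cohomology of a Lefschetz pencil of surfaces with `p_g = 2`), or `h^(p,w-p) = h^(q,w-q) = 1` for the two largest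
(for example Calabi-Yau varieties of dimension four and one parameter, with the Hodge numbers `1, 1, m, 1, 1` of the transcendental part). The fibre over `x = 0` may be smooth or degenerate: we suppose that near `x = 0` the
period matrix is `L_i(log (1/x)) P_i(x)`, where the entries of `P_i` are polynomials with any complex coefficients in a system of G-functions with rational coefficients which are solutions of a
differential system with a regular singularity with rational exponents at infinity, and the entries of `L_i(u)` are polynomials. We consider the variation `V = pr_1^* V_1 ⊕ … ⊕ pr_k^* V_k` on the product `S` of the `k` curves. The generic Hodge datum is not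
a Shimura datum if `p + q ≥ w + 2`, and by the conjecture the CM-points of `V` are not Zariski dense in `S`; the same is expected (Klingler) for the points of Shimura type: these are the points such that the Mumford–Tate group of the fibre with its
Hodge structure is a Shimura datum (up to the center); the Hodge structure on its Lie algebra has the types `(-1,1)`, `(0,0)`, `(1,-1)` only, which means that the Hodge operator satisfies `(ad Φ)^3 = ad Φ` on it. The CM-points, all sums of
Hodge structures with CM and of K3 type, all fibres in the Tannakian category generated by the cohomology of abelian varieties are of this kind.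

**Theorem.** Let `b_i ≥ 2` be integers. There is a constant `K`, which depends only on the G-functions, the ranks, the degrees `e` of the polynomials and the `b_i`, such that for all such `V_i`
there are sets `E_1, …, E_k` of natural numbers with at most `K log N` elements in `[1, N]`, such that all points of Shimura type of the form `(b_1^(-t_1), …, b_k^(-t_k))` have `t_i ∈ E_i` for all `i`.
In particular at most `(K log N)^k` of the `N^k` points with `t_i ≤ N` are CM-points or of Shimura type.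

For CM-points and families with symplectic monodromy with `h^(w,0) = 1` this is `MP_2794d1_ag.CMPointsBigMonodromy`; new here are families with orthogonal monodromy, with `h^(w,0) = 2` in the case of surfaces, and the points of Shimura type. No bound for the number of the points of
Shimura type or the CM-points among the `b^(-t)` was known for these families. (For an upper bound of the number of CM-points on a curve in general only the countability is known; the conjecture says that there are finitely many.)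

Proof. The eigenvalue `p + q - w` of `ad` of the Hodge operator on `so(V_i)` has multiplicity one, with eigenvector `v_0 ∧ v_1` where `v_0` and `v_1` are the periods of the two forms. If the Mumford–Tate group of a fibre of `V_i` does not contain the orthogonal group,
then there is a nonzero rational skew form with value zero at `(v_0, v_1)`. By the counting theorem on values of G-functions on geometric sequences (`Pool.Agent.X120.GS`) for all but few points this relation holds on the orbit of the pair under the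
orthogonal group, and this is not possible. On the other hand the eigenvalue `p + q - w ≥ 2` is not one of `-1, 0, 1`.
-/

set_option autoImplicit false

open Matrix

open Pool.Agent.X120.BM Pool.Agent.X120.NF Pool.Agent.X120.OR

namespace Pool.Agent.Results.MP_2794d1_ag.ShimuraTypePoints

section
variable {k : ℕ} {n : Fin k → ℕ}

/-- The upper part of the Hodge decomposition is spanned by the vectors `v_0`, `v_1`: either `H^p` is the last part which is not zero, it has dimension two and is spanned by `v_0`, `v_1`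
(`p = q`), or the last two parts which are not zero, `H^p` and `H^q`, have dimension one, `H^p` is spanned by `v_0` and their sum by `v_0` and `v_1`. Moreover `p + q - w ≥ 2`. -/
def IsUpper {n : ℕ} (w : ℕ) (H : ℕ → Submodule ℂ (Fin n → ℂ)) (v : Fin 2 → Fin n → ℂ) : Prop :=
  LinearIndependent ℂ ![v 0, v 1] ∧ ∃ p q : ℕ, q ≤ p ∧ p ≤ w ∧ w + 2 ≤ p + q ∧ v 0 ∈ H p ∧ H p ⊔ H q = Submodule.span ℂ {v 0, v 1} ∧
    (q < p → H p = Submodule.span ℂ {v 0}) ∧ ∀ p' ≤ w, q < p' → p' ≠ p → H p' = ⊥

/-- `H_i` are Hodge structures of weight `w_i` with symmetric forms `A_i`, whose upper parts are spanned by the two period vectors over `x_i = b_i^(-t_i)`. -/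
def IsFibre {e : ℕ} {G : Fin k → GSystem} (F : ∀ i, OPeriods (G i) (n i) e) (w b t : Fin k → ℕ)
    (A : ∀ i, Matrix (Fin (n i)) (Fin (n i)) ℚ) (H : ∀ i, ℕ → Submodule ℂ (Fin (n i) → ℂ)) : Prop :=
  ∀ i, (A i)ᵀ = A i ∧ IsPolarized (w i) (A i) (H i) ∧ IsUpper (w i) (H i) ((F i).vec (b i) (t i))

/-- the complexification of a rational space of block diagonal matrices `(X_1, …, X_k)` -/
def complexification (𝔪 : Submodule ℚ (∀ i, Matrix (Fin (n i)) (Fin (n i)) ℚ)) :
    Submodule ℂ (∀ i, Matrix (Fin (n i)) (Fin (n i)) ℂ) :=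
  Submodule.span ℂ ((fun X : (∀ i, Matrix (Fin (n i)) (Fin (n i)) ℚ) => fun i => toC (X i)) '' 𝔪)

/-- the commutator of block diagonal matrices -/
def ad (Φ X : ∀ i, Matrix (Fin (n i)) (Fin (n i)) ℂ) : ∀ i, Matrix (Fin (n i)) (Fin (n i)) ℂ := fun i => Φ i * X i - X i * Φ i

/-- The sum of the Hodge structures `H_i` is of Shimura type: there is a rational Lie algebra `𝔪` of block diagonal matrices whose complexification contains the Hodge operator `Φ`, such that `(ad Φ)^3 = ad Φ` on `𝔪`: the Hodge structure on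
`𝔪` has the types `(-1,1)`, `(0,0)`, `(1,-1)` only. (If the Mumford–Tate group is the group of a Shimura datum then its Lie algebra has this property.) -/
def IsShimura (w : Fin k → ℕ) (H : ∀ i, ℕ → Submodule ℂ (Fin (n i) → ℂ)) : Prop :=
  ∃ 𝔪 : Submodule ℚ (∀ i, Matrix (Fin (n i)) (Fin (n i)) ℚ), (∀ X ∈ 𝔪, ∀ Y ∈ 𝔪, (fun i => X i * Y i - Y i * X i) ∈ 𝔪) ∧
    ∃ Φ : ∀ i, Matrix (Fin (n i)) (Fin (n i)) ℂ, (∀ i, IsHodgeOperator (w i) (H i) (Φ i)) ∧ Φ ∈ complexification 𝔪 ∧
      ∀ X ∈ 𝔪, ad Φ (ad Φ (ad Φ fun i => toC (X i))) = ad Φ fun i => toC (X i)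

/-- The sum of the Hodge structures `H_i` has complex multiplication: there is a rational space of commuting block diagonal matrices whose
complexification contains the Hodge operator `(Φ_1, …, Φ_k)`. (For a torus, the Lie algebra of the Mumford–Tate group is such a space.) -/
def IsCM (w : Fin k → ℕ) (H : ∀ i, ℕ → Submodule ℂ (Fin (n i) → ℂ)) : Prop :=
  ∃ 𝔪 : Submodule ℚ (∀ i, Matrix (Fin (n i)) (Fin (n i)) ℚ), (∀ X ∈ 𝔪, ∀ Y ∈ 𝔪, ∀ i, X i * Y i = Y i * X i) ∧
    ∃ Φ : ∀ i, Matrix (Fin (n i)) (Fin (n i)) ℂ, (∀ i, IsHodgeOperator (w i) (H i) (Φ i)) ∧ Φ ∈ complexification 𝔪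

theorem cm_shimura {w : Fin k → ℕ} {H : ∀ i, ℕ → Submodule ℂ (Fin (n i) → ℂ)} (h : IsCM w H) : IsShimura w H := by
  obtain ⟨𝔪, hcomm, Φ, hop, hΦ⟩ := h
  have h1 : ∀ X ∈ 𝔪, ad Φ (fun i => toC (X i)) = 0 := by
    intro X hX
    unfold complexification at hΦ
    clear hop
    induction hΦ using Submodule.span_induction with
    | mem Z hZ =>
      obtain ⟨Y, hY, rfl⟩ := hZ
      funext i
      show toC (Y i) * toC (X i) - toC (X i) * toC (Y i) = 0
      have e1 : ∀ P Q : Matrix (Fin (n i)) (Fin (n i)) ℚ, toC P * toC Q = toC (P * Q) := by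
        intro P Q
        ext a c
        show ∑ j, ((P a j : ℚ) : ℂ) * ((Q j c : ℚ) : ℂ) = ((∑ j, P a j * Q j c : ℚ) : ℂ)
        push_cast
        rfl
      rw [e1, e1, hcomm Y hY X hX i, sub_self]
    | zero =>
      funext i
      show (0 : Matrix (Fin (n i)) (Fin (n i)) ℂ) * toC (X i) - toC (X i) * (0 : Matrix (Fin (n i)) (Fin (n i)) ℂ) = 0
      rw [Matrix.zero_mul, Matrix.mul_zero, sub_self]
    | add Y Z _ _ hY hZ =>
      funext i
      have hY' := congrFun hY i
      have hZ' := congrFun hZ i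
      show (Y i + Z i) * toC (X i) - toC (X i) * (Y i + Z i) = 0
      rw [Matrix.add_mul, Matrix.mul_add, add_sub_add_comm]
      show (Y i * toC (X i) - toC (X i) * Y i) + (Z i * toC (X i) - toC (X i) * Z i) = 0
      have hY'' : Y i * toC (X i) - toC (X i) * Y i = 0 := hY'
      have hZ'' : Z i * toC (X i) - toC (X i) * Z i = 0 := hZ'
      rw [hY'', hZ'', add_zero]
    | smul c Y _ hY =>
      funext i
      have hY' : Y i * toC (X i) - toC (X i) * Y i = 0 := congrFun hY i
      show (c • Y i) * toC (X i) - toC (X i) * (c • Y i) = 0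
      rw [Matrix.smul_mul, Matrix.mul_smul, ← smul_sub, hY', smul_zero]
  have h2 : ad Φ 0 = 0 := by
    funext i
    show Φ i * 0 - 0 * Φ i = 0
    rw [Matrix.mul_zero, Matrix.zero_mul, sub_self]
  refine ⟨𝔪, ?_, Φ, hop, hΦ, ?_⟩
  · intro X hX Y hY
    have h3 : (fun i => X i * Y i - Y i * X i) = 0 := by
      funext i
      show X i * Y i - Y i * X i = 0
      rw [hcomm X hX Y hY i, sub_self]
    rw [h3]
    exact 𝔪.zero_mem
  · intro X hX
    rw [h1 X hX, h2, h2]

theorem isTop {m w : ℕ} {H : ℕ → Submodule ℂ (Fin m → ℂ)} {v : Fin 2 → Fin m → ℂ} (h : IsUpper w H v) : IsTop w H v := by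
  obtain ⟨h1, p, q, h2, h3, h4, h5⟩ := h
  exact ⟨h1, p, q, h2, h3, by omega, h5⟩

/-- the projection of the complexification -/
theorem proj_mem {𝔪 : Submodule ℚ (∀ i, Matrix (Fin (n i)) (Fin (n i)) ℚ)}
    {Z : ∀ i, Matrix (Fin (n i)) (Fin (n i)) ℂ} (hZ : Z ∈ complexification 𝔪) (i : Fin k) :
    Z i ∈ extend₀ ℂ (𝔪.map (LinearMap.proj i)) := by
  unfold complexification at hZ
  induction hZ using Submodule.span_induction with
  | mem x hx =>
    obtain ⟨Y, hY, rfl⟩ := hx
    refine Submodule.subset_span ⟨Y i, ⟨Y, hY, rfl⟩, ?_⟩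
    exact (toC_alg _).symm
  | zero => exact Submodule.zero_mem _
  | add x y _ _ hx hy => exact Submodule.add_mem _ hx hy
  | smul a x _ hx => exact Submodule.smul_mem _ a hx

/-- the eigenvector of the Hodge operator on the orthogonal Lie algebra -/
theorem top_vector {m w : ℕ} {A : Matrix (Fin m) (Fin m) ℚ} {H : ℕ → Submodule ℂ (Fin m → ℂ)} (hA : Aᵀ = A) (hH : IsPolarized w A H)
    {v : Fin 2 → Fin m → ℂ} (ht : IsUpper w H v) {Φ : Matrix (Fin m) (Fin m) ℂ} (hop : IsHodgeOperator w H Φ) :
    ∃ (Z : Matrix (Fin m) (Fin m) ℂ) (d : ℕ), 2 ≤ d ∧ Z ≠ 0 ∧ Z ∈ orthLie ℂ A ∧ Φ * Z - Z * Φ = (-(d : ℂ)) • Z := by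
  obtain ⟨hind, p, q, hqp, hpw, hpq, hv0, hspan, hone, -⟩ := ht
  have hv1 : v 1 ∈ H p ⊔ H q := by rw [hspan]; exact Submodule.subset_span (by simp)
  rw [LinearIndependent.pair_iff] at hind
  -- an independent pair in `H^p`, `H^q`
  obtain ⟨x, hx, y, hy, hxy⟩ : ∃ x ∈ H p, ∃ y ∈ H q, wedge x y ≠ 0 := by
    have hw : wedge (v 0) (v 1) ≠ 0 := by
      intro h0
      obtain ⟨a, ha⟩ : ∃ a, v 0 a ≠ 0 := by
        by_contra hno
        push Not at hno
        have h1 := hind 1 0 (by rw [zero_smul, add_zero, one_smul]; exact funext hno)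
        exact one_ne_zero h1.1
      have h1 := hind (v 1 a) (-(v 0 a)) (by
        funext c
        have h2 : v 0 a * v 1 c - v 1 a * v 0 c = 0 := congrFun (congrFun h0 a) c
        show v 1 a * v 0 c + -(v 0 a) * v 1 c = 0
        linear_combination -h2)
      exact ha (neg_eq_zero.1 h1.2)
    rcases Nat.lt_or_eq_of_le hqp with hlt | heq
    · obtain ⟨a, ha, c, hc, hac⟩ := Submodule.mem_sup.1 hv1
      rw [hone hlt] at ha
      obtain ⟨κ, rfl⟩ := Submodule.mem_span_singleton.1 ha
      refine ⟨v 0, hv0, c, hc, ?_⟩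
      have h1 := wedge_comb (v 0) (v 1) 1 0 (-κ) 1
      have h2 : c = (-κ) • v 0 + (1 : ℂ) • v 1 := by
        rw [← hac, one_smul, neg_smul]
        abel
      rw [one_smul, zero_smul, add_zero, ← h2] at h1
      rw [h1]
      have h3 : (1 : ℂ) * 1 - 0 * -κ = 1 := by ring
      rw [h3, one_smul]
      exact hw
    · subst heq
      refine ⟨v 0, hv0, v 1, ?_, hw⟩
      rwa [sup_idem] at hv1
  have hAC : (toC A)ᵀ = toC A := by
    show toC Aᵀ = _
    rw [hA]
  have hWt : (wedge x y)ᵀ = -wedge x y := by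
    ext a c
    show x c * y a - y c * x a = -(x a * y c - y a * x c)
    ring
  have hAd : IsUnit (toC A).det := by
    have h1 : (toC A).det = ((A.det : ℚ) : ℂ) := by
      have h2 := (RingHom.map_det (Rat.castHom ℂ) A).symm
      exact h2
    rw [h1, isUnit_iff_ne_zero]
    exact_mod_cast hH.nondeg
  refine ⟨toC A * wedge x y, p + q - w, by omega, ?_, ?_, ?_⟩
  · intro h0
    apply hxy
    have h1 := congrArg (fun M => (toC A)⁻¹ * M) h0
    simp only [Matrix.mul_zero, ← Matrix.mul_assoc, Matrix.nonsing_inv_mul _ hAd, Matrix.one_mul] at h1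
    exact h1
  · show toC A * wedge x y * A.map (algebraMap ℚ ℂ) + A.map (algebraMap ℚ ℂ) * (toC A * wedge x y)ᵀ = 0
    rw [← toC_alg, Matrix.transpose_mul, hWt, hAC, Matrix.neg_mul, Matrix.mul_neg, Matrix.mul_assoc]
    exact add_neg_cancel _
  · have h1 := op_form hH hop
    have e1 : Φᵀ * wedge x y + wedge x y * Φ = ((p : ℂ) + q) • wedge x y := by
      unfold wedge
      rw [Matrix.mul_sub, Matrix.sub_mul, Matrix.mul_vecMulVec, Matrix.mul_vecMulVec, Matrix.vecMulVec_mul, Matrix.vecMulVec_mul,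
        Matrix.mulVec_transpose, Matrix.mulVec_transpose, hop p hpw x hx, hop q (by omega) y hy]
      ext a c
      simp only [Matrix.add_apply, Matrix.sub_apply, Matrix.vecMulVec_apply, Matrix.smul_apply, Pi.smul_apply, smul_eq_mul]
      ring
    have e2 : Φ * toC A = (w : ℂ) • toC A - toC A * Φᵀ := by rw [← h1]; abel
    have e3 : Φ * (toC A * wedge x y) - toC A * wedge x y * Φ = (w : ℂ) • (toC A * wedge x y) - toC A * (Φᵀ * wedge x y + wedge x y * Φ) := by
      rw [← Matrix.mul_assoc, e2, Matrix.sub_mul, Matrix.smul_mul, Matrix.mul_add, Matrix.mul_assoc (toC A) Φᵀ, Matrix.mul_assoc (toC A) (wedge x y)]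
      abel
    rw [e3, e1, Matrix.mul_smul, ← sub_smul]
    congr 1
    have e4 : ((p + q - w : ℕ) : ℂ) = (p : ℂ) + q - w := by
      rw [Nat.cast_sub (by omega)]
      push_cast
      rfl
    rw [e4]
    ring

end

/-- The point `(b_1^(-t_1), …, b_k^(-t_k))` is of Shimura type: there are Hodge structures `H_i` with symmetric forms
`A_i` on the fibres, with the upper parts given by the period vectors, whose sum is of Shimura type. -/
def IsShimuraPoint {k e : ℕ} {G : Fin k → GSystem} {n : Fin k → ℕ} (F : ∀ i, OPeriods (G i) (n i) e) (w b t : Fin k → ℕ) : Prop :=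
  ∃ (A : ∀ i, Matrix (Fin (n i)) (Fin (n i)) ℚ) (H : ∀ i, ℕ → Submodule ℂ (Fin (n i) → ℂ)),
    IsFibre F w b t A H ∧ IsShimura w H

/-- The point `(b_1^(-t_1), …, b_k^(-t_k))` is a CM-point. -/
def IsCMPoint {k e : ℕ} {G : Fin k → GSystem} {n : Fin k → ℕ} (F : ∀ i, OPeriods (G i) (n i) e) (w b t : Fin k → ℕ) : Prop :=
  ∃ (A : ∀ i, Matrix (Fin (n i)) (Fin (n i)) ℚ) (H : ∀ i, ℕ → Submodule ℂ (Fin (n i) → ℂ)),
    IsFibre F w b t A H ∧ IsCM w H

theorem not_generic {k e : ℕ} {G : Fin k → GSystem} {n : Fin k → ℕ} {F : ∀ i, OPeriods (G i) (n i) e} {w b t : Fin k → ℕ}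
    (h : IsShimuraPoint F w b t) (i : Fin k) : ¬ Generic (F i) (b i) (t i) := by
  intro hG
  obtain ⟨A, H, hF, 𝔪, hlie, Φ, hop, hΦ, hcube⟩ := h
  obtain ⟨hA, hH, hup⟩ := hF i
  -- the Lie algebra contains the orthogonal Lie algebra
  have h1 : orthLie ℚ (A i) ≤ 𝔪.map (LinearMap.proj i) := by
    intro X hX
    refine hG (w i) (A i) (H i) hA hH (isTop hup) (Φ i) (hop i) (𝔪.map (LinearMap.proj i)) ?_ 0 ?_ X (mem_orthLie.1 hX)
    · rintro _ ⟨X, hX, rfl⟩ _ ⟨Y, hY, rfl⟩
      exact ⟨_, hlie X hX Y hY, rfl⟩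
    · rw [Rat.cast_zero, zero_smul, sub_zero]
      exact proj_mem hΦ i
  have h2 : ∀ Z ∈ orthLie ℂ (A i), Φ i * (Φ i * (Φ i * Z - Z * Φ i) - (Φ i * Z - Z * Φ i) * Φ i) -
      (Φ i * (Φ i * Z - Z * Φ i) - (Φ i * Z - Z * Φ i) * Φ i) * Φ i = Φ i * Z - Z * Φ i := by
    intro Z hZ
    rw [← extend_orth] at hZ
    unfold extend₀ at hZ
    induction hZ using Submodule.span_induction with
    | mem Z hZ =>
      obtain ⟨X, hX, rfl⟩ := hZ
      obtain ⟨Y, hY, rfl⟩ := h1 hX
      have h3 := congrFun (hcube Y hY) i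
      have h4 : (fun X : Matrix (Fin (n i)) (Fin (n i)) ℚ => X.map (algebraMap ℚ ℂ)) ((LinearMap.proj i : (∀ i, Matrix (Fin (n i)) (Fin (n i)) ℚ) →ₗ[ℚ] _) Y) = toC (Y i) :=
        (toC_alg _).symm
      rw [h4]
      exact h3
    | zero => simp
    | add Y Z _ _ hY hZ =>
      have e1 : Φ i * (Y + Z) - (Y + Z) * Φ i = (Φ i * Y - Y * Φ i) + (Φ i * Z - Z * Φ i) := by
        rw [Matrix.mul_add, Matrix.add_mul]
        abel
      have e2 : ∀ P Q : Matrix (Fin (n i)) (Fin (n i)) ℂ, Φ i * (P + Q) - (P + Q) * Φ i = (Φ i * P - P * Φ i) + (Φ i * Q - Q * Φ i) := by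
        intro P Q
        rw [Matrix.mul_add, Matrix.add_mul]
        abel
      rw [e1, e2, e2, hY, hZ]
    | smul c Y _ hY =>
      have e2 : ∀ P : Matrix (Fin (n i)) (Fin (n i)) ℂ, Φ i * (c • P) - (c • P) * Φ i = c • (Φ i * P - P * Φ i) := by
        intro P
        rw [Matrix.mul_smul, Matrix.smul_mul, smul_sub]
      rw [e2, e2, e2, hY]
  obtain ⟨Z, d, hd, hZ0, hZ, hcomm⟩ := top_vector hA hH hup (hop i)
  have h3 := h2 Z hZ
  have e2 : ∀ (c : ℂ) (P : Matrix (Fin (n i)) (Fin (n i)) ℂ), Φ i * (c • P) - (c • P) * Φ i = c • (Φ i * P - P * Φ i) := by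
    intro c P
    rw [Matrix.mul_smul, Matrix.smul_mul, smul_sub]
  rw [hcomm, e2, hcomm, e2, e2, hcomm, smul_smul, smul_smul, ← sub_eq_zero, ← sub_smul] at h3
  rcases smul_eq_zero.1 h3 with h4 | h4
  · have h5 : ((d : ℂ)) * ((d : ℂ) - 1) * ((d : ℂ) + 1) = 0 := by linear_combination -h4
    have h6 : (d : ℂ) ≠ 0 := by exact_mod_cast (show d ≠ 0 by omega)
    have h7 : (d : ℂ) - 1 ≠ 0 := by
      intro h
      have h8 : (d : ℂ) = ((1 : ℕ) : ℂ) := by rw [Nat.cast_one]; linear_combination h
      have h9 : d = 1 := by exact_mod_cast h8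
      omega
    have h8 : (d : ℂ) + 1 ≠ 0 := by exact_mod_cast (show d + 1 ≠ 0 by omega)
    exact (mul_ne_zero (mul_ne_zero h6 h7) h8) h5
  · exact hZ0 h4

/-- **The theorem.** -/
theorem result (k e : ℕ) (G : Fin k → GSystem) (n : Fin k → ℕ) (b : Fin k → ℕ) (hb : ∀ i, 2 ≤ b i) :
    ∃ K : ℝ, 0 ≤ K ∧ ∀ (F : ∀ i, OPeriods (G i) (n i) e) (w : Fin k → ℕ),
      ∃ E : Fin k → Set ℕ, (∀ i, ∀ N : ℕ, 2 ≤ N → (({t : ℕ | 1 ≤ t ∧ t ≤ N ∧ t ∈ E i}.ncard : ℕ) : ℝ) ≤ K * Real.log N) ∧
        (∀ t : Fin k → ℕ, IsCMPoint F w b t → IsShimuraPoint F w b t) ∧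
        (∀ t : Fin k → ℕ, IsShimuraPoint F w b t → ∀ i, t i ∈ E i) ∧
        ∀ N : ℕ, 2 ≤ N → (({t : Fin k → ℕ | (∀ i, 1 ≤ t i ∧ t i ≤ N) ∧ IsShimuraPoint F w b t}.ncard : ℕ) : ℝ) ≤
          (K * Real.log N) ^ k := by
  classical
  choose K hK hcount using fun i => count_generic (G i) (n i) e (b i) (hb i)
  refine ⟨∑ i, K i, Finset.sum_nonneg fun i _ => hK i, ?_⟩
  intro F w
  have hE : ∀ i, ∀ N : ℕ, 2 ≤ N → (({t : ℕ | 1 ≤ t ∧ t ≤ N ∧ t ∈ {t : ℕ | ¬ Generic (F i) (b i) t}}.ncard : ℕ) : ℝ) ≤
      (∑ i, K i) * Real.log N := by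
    intro i N hN
    refine (hcount i (F i) N hN).trans ?_
    refine mul_le_mul_of_nonneg_right (Finset.single_le_sum (fun j _ => hK j) (Finset.mem_univ i)) ?_
    exact Real.log_nonneg (by
      have : 1 ≤ N := by omega
      exact_mod_cast this)
  have hmem : ∀ t : Fin k → ℕ, IsShimuraPoint F w b t → ∀ i, t i ∈ {t : ℕ | ¬ Generic (F i) (b i) t} :=
    fun t ht i => not_generic ht i
  refine ⟨fun i => {t : ℕ | ¬ Generic (F i) (b i) t}, hE, ?_, hmem, ?_⟩
  · rintro t ⟨A, H, hF, hcm⟩
    exact ⟨A, H, hF, cm_shimura hcm⟩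
  intro N hN
  -- the product of the exceptional sets
  set U : Fin k → Set ℕ := fun i => {t : ℕ | 1 ≤ t ∧ t ≤ N ∧ t ∈ {t : ℕ | ¬ Generic (F i) (b i) t}} with hU
  have hUf : ∀ i, (U i).Finite := fun i => (Set.finite_Iic N).subset fun t ht => ht.2.1
  have h1 : {t : Fin k → ℕ | (∀ i, 1 ≤ t i ∧ t i ≤ N) ∧ IsShimuraPoint F w b t} ⊆
      (Fintype.piFinset fun i => (hUf i).toFinset : Finset (Fin k → ℕ)) := by
    intro t ht
    rw [Finset.mem_coe, Fintype.mem_piFinset]
    intro i
    rw [Set.Finite.mem_toFinset]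
    exact ⟨(ht.1 i).1, (ht.1 i).2, hmem t ht.2 i⟩
  have h2 := Set.ncard_le_ncard h1 (Finset.finite_toSet _)
  rw [Set.ncard_coe_finset, Fintype.card_piFinset] at h2
  calc (({t : Fin k → ℕ | (∀ i, 1 ≤ t i ∧ t i ≤ N) ∧ IsShimuraPoint F w b t}.ncard : ℕ) : ℝ)
      ≤ ((∏ i, (hUf i).toFinset.card : ℕ) : ℝ) := by exact_mod_cast h2
    _ = ∏ i, ((hUf i).toFinset.card : ℝ) := by push_cast; rfl
    _ ≤ ∏ _i : Fin k, ((∑ i, K i) * Real.log N) := by
        refine Finset.prod_le_prod (fun i _ => Nat.cast_nonneg _) fun i _ => ?_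
        have h3 := hE i N hN
        rw [Set.ncard_eq_toFinset_card _ (hUf i)] at h3
        exact h3
    _ = ((∑ i, K i) * Real.log N) ^ k := by
        rw [Finset.prod_const, Finset.card_univ, Fintype.card_fin]

end Pool.Agent.Results.MP_2794d1_ag.ShimuraTypePoints
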